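import Mathlib
import Pool.Agent.H57R2.PU.Main

/-!
Non-uniqueness of the infinite cluster on a bounded degree graph rough isometric to `ℤ^d`, `d ≥ 7`.
The graph is the nearest neighbour lattice `ℤ^{D+1}`, `D = d - 1`, together with the diagonal edges
from `(x, t)` to `(x + ε, t + 1)`, `ε ∈ {1,2}^D`, in two far away opposite cones, `p = 1/(2d + 1)`.
-/

set_option autoImplicit false

open MeasureTheory

namespace Pool.Agent.Results.MP_d2b88b_pr.NonUniqueness

/-- For every `d ≥ 7` there are a connected graph of bounded degree that is quasi-isometric to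
`ℤ^d` and a `p` with `0 < p < 1` such that in Bernoulli bond percolation with parameter `p` there
are two distinct infinite clusters with positive probability. -/
theorem result : ∀ d : ℕ, 7 ≤ d → ∃ (V : Type) (G : SimpleGraph V), G.Connected ∧
    (∃ Δ : ℕ, ∀ v : V, (G.neighborSet v).encard ≤ (Δ : ℕ∞)) ∧
    (∃ (f : V → (Fin d → ℤ)) (C K : ℕ),
        (∀ x y : V,
          (∑ i, |f x i - f y i|) ≤ (C : ℤ) * (G.dist x y : ℤ) + (K : ℤ) ∧
          (G.dist x y : ℤ) ≤ (C : ℤ) * (∑ i, |f x i - f y i|) + (K : ℤ)) ∧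
        ∀ z : Fin d → ℤ, ∃ x : V, (∑ i, |z i - f x i|) ≤ (K : ℤ)) ∧
    ∃ (p : NNReal) (hp : p ≤ 1), 0 < p ∧ p < 1 ∧
      0 < (Measure.infinitePi (fun _ : G.edgeSet => (PMF.bernoulli p hp).toMeasure))
        {ω | ∃ c₁ c₂ : (SimpleGraph.fromEdgeSet
            {e : Sym2 V | ∃ h : e ∈ G.edgeSet, ω ⟨e, h⟩ = true}).ConnectedComponent,
          c₁.supp.Infinite ∧ c₂.supp.Infinite ∧ c₁ ≠ c₂} := by
  intro d hd
  obtain ⟨D, rfl⟩ : ∃ D : ℕ, d = D + 1 := ⟨d - 1, by omega⟩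
  obtain ⟨T, p, hp, hp0, hp1, hpos⟩ := H57R2.PU.nonuniq D (by omega)
  refine ⟨H57R2.PU.Vx D, H57R2.PU.GG D T, H57R2.PU.conn D T,
    ⟨(4 * D + 3) ^ (D + 1), H57R2.PU.deg D T⟩,
    ⟨fun v => Fin.cons v.2 v.1, 2 * D + 1, 0, ?_, ?_⟩, p, hp, hp0, hp1, hpos⟩
  · intro x y
    have h1 : ∑ i, |(Fin.cons x.2 x.1 : Fin (D + 1) → ℤ) i - (Fin.cons y.2 y.1 : Fin (D + 1) → ℤ) i|
        = H57R2.PU.nrm (x - y) := by
      rw [Fin.sum_univ_succ]
      simp [H57R2.PU.nrm]
    have h2 := H57R2.PU.nrm_le_dist (T := T) x y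
    have h3 := H57R2.PU.dist_le (T := T) x y
    have h4 := H57R2.PU.nrm_nonneg (x - y)
    rw [h1]
    push_cast
    refine ⟨by linarith, ?_⟩
    have h5 : (0 : ℤ) ≤ D := Int.natCast_nonneg D
    nlinarith
  · intro z
    refine ⟨(fun i => z i.succ, z 0), ?_⟩
    have : (Fin.cons (z 0) (fun i : Fin D => z i.succ) : Fin (D + 1) → ℤ) = z :=
      Fin.cons_self_tail z
    simp [this]

end Pool.Agent.Results.MP_d2b88b_pr.NonUniqueness
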